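import Pool.Agent.W998.KG.Stm

/-! Project KG, part CNT: counting at the last vertex of a lollipop. -/

set_option autoImplicit false

namespace Pool.Agent.W571.KG.CNT

open Pool.Agent.Results.MP_633d19_co.SmallDegree
open Pool.Agent.Results.MP_633d19_co.SmallDegree.MGraph
open Pool.Agent.W998.KG

variable {V E : Type}

theorem card_ms' [Finite E] {G : MGraph V E} {k Δ : ℕ} {c : E → Option (Fin k)} {α β : Fin k}
    {u : V} (hdeg : G.degree u ≤ Δ) (hα : ¬ G.Miss c u α) (hβ : ¬ G.Miss c u β) :
    k ≤ (G.ms c α β u).card + Δ := by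
  classical
  have := Fintype.ofFinite E
  set A := Finset.univ.filter (fun e => u ∈ G.ends e) with hA
  have h2 : A.card ≤ Δ := by
    rw [hA, ← degree_eq]
    exact hdeg
  set P := Finset.univ.filter (fun a : Fin k => ¬ G.Miss c u a) with hP
  have h3 : P.card ≤ A.card := by
    have : P ⊆ A.image (fun e => (c e).getD α) := by
      intro a ha
      rw [hP, Finset.mem_filter] at ha
      have ha := ha.2
      unfold Miss at ha
      push Not at ha
      obtain ⟨e, he, hea⟩ := ha
      rw [Finset.mem_image]
      refine ⟨e, ?_, by simp [hea]⟩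
      rw [hA, Finset.mem_filter]
      exact ⟨Finset.mem_univ _, he⟩
    exact (Finset.card_le_card this).trans Finset.card_image_le
  have h4 : (Finset.univ : Finset (Fin k)) ⊆ G.ms c α β u ∪ P := by
    intro a _
    simp only [Finset.mem_union, mem_ms, hP, Finset.mem_filter, Finset.mem_univ, true_and]
    by_cases h : G.Miss c u a
    · left
      refine ⟨?_, ?_, h⟩
      · rintro rfl
        exact hα h
      · rintro rfl
        exact hβ h
    · right
      exact h
  have h5 := Finset.card_le_card h4
  rw [Finset.card_univ, Fintype.card_fin] at h5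
  have h6 := Finset.card_union_le (G.ms c α β u) P
  omega

theorem main : PartCNT := by
  classical
  intro V E _ _ G k Δ T μ hk hT hdeg hmult l r y f h α β c hl hodd hlr H helem hend
  have := Fintype.ofFinite E
  set A : Finset ℕ := (Finset.range r).filter (fun i => ∃ e, G.ends e = s(y r, y i)) with hA
  have hAmem : ∀ i, i ∈ A ↔ i < r ∧ ∃ e, G.ends e = s(y r, y i) := fun i => by
    rw [hA, Finset.mem_filter, Finset.mem_range]
  refine ⟨A, fun i hi => (hAmem i).1 hi, ?_⟩
  set Ed : Finset E := Finset.univ.filter (fun e => ∃ i < r, G.ends e = s(y r, y i)) with hEd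
  have hEdmem : ∀ e, e ∈ Ed ↔ ∃ i < r, G.ends e = s(y r, y i) := fun e => by
    rw [hEd, Finset.mem_filter]
    simp only [Finset.mem_univ, true_and]
  -- upper bound
  have hup : Ed.card ≤ A.card * μ := by
    have h1 : Ed ⊆ A.biUnion (fun i => Finset.univ.filter (fun e => G.ends e = s(y r, y i))) := by
      intro e he
      obtain ⟨i, hi, hei⟩ := (hEdmem e).1 he
      exact Finset.mem_biUnion.2 ⟨i, (hAmem i).2 ⟨hi, e, hei⟩,
        Finset.mem_filter.2 ⟨Finset.mem_univ _, hei⟩⟩
    refine (Finset.card_le_card h1).trans (Finset.card_biUnion_le_card_mul _ _ _ fun i hi => ?_)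
    have h2 : y r ≠ y i := fun h3 => by
      have := H.inj r le_rfl i ((hAmem i).1 hi).1.le h3
      have := ((hAmem i).1 hi).1
      omega
    have h3 := hmult (y r) (y i) h2
    unfold mult at h3
    rw [Nat.card_eq_fintype_card, Fintype.card_subtype] at h3
    exact h3
  refine le_trans ?_ hup
  -- the colours
  set S : Finset (Fin k) := (Finset.range r).biUnion (fun j => G.ms c α β (y j)) with hS
  have hScard : r * T ≤ S.card := by
    rw [hS, Finset.card_biUnion]
    · have h1 : ∑ _j ∈ Finset.range r, T ≤ ∑ j ∈ Finset.range r, (G.ms c α β (y j)).card := by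
        refine Finset.sum_le_sum fun j hj => ?_
        rw [Finset.mem_range] at hj
        by_cases hjl : j < l
        · have := H.st.card_ms hl hdeg hjl
          omega
        · obtain ⟨h2, h3⟩ := helem.2 j (not_lt.1 hjl) hj.le
          have := card_ms' (hdeg (y j)) h2 h3
          omega
      simpa using h1
    · intro i hi j hj hij
      rw [Finset.mem_coe, Finset.mem_range] at hi hj
      rw [Function.onFun, Finset.disjoint_left]
      intro a ha ha'
      rw [mem_ms] at ha ha'
      rcases Nat.lt_or_gt_of_ne hij with h1 | h1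
      · exact helem.1 i j h1 hj.le a ha.1 ha.2.1 ha.2.2 ha'.2.2
      · exact helem.1 j i h1 hi.le a ha.1 ha.2.1 ha'.2.2 ha.2.2
  have hSmem : ∀ a ∈ S, a ≠ α ∧ a ≠ β ∧ ∃ j < r, G.Miss c (y j) a := by
    intro a ha
    obtain ⟨j, hj, ha⟩ := Finset.mem_biUnion.1 ha
    rw [mem_ms] at ha
    exact ⟨ha.1, ha.2.1, j, Finset.mem_range.1 hj, ha.2.2⟩
  set Ed1 : Finset E := Ed.filter (fun e => ∃ a ∈ S, c e = some a) with hEd1
  have h1 : S.card ≤ Ed1.card := by
    have h2 : S ⊆ Ed1.image (fun e => (c e).getD α) := by
      intro a ha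
      obtain ⟨haα, haβ, j, hj, hm⟩ := hSmem a ha
      have h3 : ¬ G.Miss c (y r) a := fun h4 => helem.1 j r hj le_rfl a haα haβ hm h4
      unfold Miss at h3
      push Not at h3
      obtain ⟨e, he, hea⟩ := h3
      rw [Finset.mem_image]
      refine ⟨e, ?_, by simp [hea]⟩
      rw [hEd1, Finset.mem_filter, hEdmem]
      exact ⟨hend e a he hea ⟨j, hj, hm⟩, a, ha, hea⟩
    exact (Finset.card_le_card h2).trans Finset.card_image_le
  -- two more edges
  have h2 : ∃ e1 e2 : E, e1 ≠ e2 ∧ e1 ∈ Ed ∧ e2 ∈ Ed ∧ (∀ a ∈ S, c e1 ≠ some a) ∧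
      ∀ a ∈ S, c e2 ≠ some a := by
    by_cases hc : r + 1 = l
    · have finj := G.edge_inj hl H.st.inj H.st.ed
      have e1 := H.st.ed (l - 2) (by omega)
      have e2 := H.st.ed (l - 1) (by omega)
      have n1 : nx l (l - 2) = r := by
        unfold nx
        split_ifs <;> omega
      have n2 : nx l (l - 1) = 0 := by
        unfold nx
        split_ifs <;> omega
      rw [n1] at e1
      rw [n2] at e2
      refine ⟨f (l - 2), f (l - 1), fun hf => ?_, ?_, ?_, ?_, ?_⟩
      · have := finj (l - 2) (by omega) (l - 1) (by omega) hf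
        omega
      · rw [hEdmem]
        exact ⟨l - 2, by omega, by rw [e1, Sym2.eq_swap]⟩
      · rw [hEdmem]
        refine ⟨0, by omega, ?_⟩
        rw [e2, show l - 1 = r by omega]
      · intro a _
        rw [(H.st.none_iff _).2 ⟨l - 2, by omega, rfl⟩]
        exact (Option.some_ne_none a).symm
      · intro a _
        rw [(H.st.none_iff _).2 ⟨l - 1, by omega, rfl⟩]
        exact (Option.some_ne_none a).symm
    · obtain ⟨hα, hβ⟩ := helem.2 r (by omega) le_rfl
      unfold Miss at hα hβ
      push Not at hα hβ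
      obtain ⟨e1, he1, hc1⟩ := hα
      obtain ⟨e2, he2, hc2⟩ := hβ
      refine ⟨e1, e2, ?_, ?_, ?_, ?_, ?_⟩
      · rintro rfl
        rw [hc1] at hc2
        exact H.st.ne (Option.some.inj hc2)
      · rw [hEdmem]
        exact hend e1 α he1 hc1 ⟨0, by omega, H.st.ma 0 (by omega)⟩
      · rw [hEdmem]
        exact hend e2 β he2 hc2 ⟨0, by omega, H.st.mb 0 (by omega)⟩
      · intro a ha hea
        rw [hc1] at hea
        exact (hSmem a ha).1 (Option.some.inj hea).symm
      · intro a ha hea
        rw [hc2] at hea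
        exact (hSmem a ha).2.1 (Option.some.inj hea).symm
  obtain ⟨e1, e2, hne, he1, he2, hc1, hc2⟩ := h2
  have h3 : Ed1 ∪ {e1, e2} ⊆ Ed := by
    intro e he
    rw [Finset.mem_union] at he
    rcases he with he | he
    · exact (Finset.mem_filter.1 he).1
    · simp only [Finset.mem_insert, Finset.mem_singleton] at he
      rcases he with rfl | rfl
      · exact he1
      · exact he2
  have h4 : Disjoint Ed1 {e1, e2} := by
    rw [Finset.disjoint_left]
    intro e he he'
    obtain ⟨a, ha, hea⟩ := (Finset.mem_filter.1 he).2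
    simp only [Finset.mem_insert, Finset.mem_singleton] at he'
    rcases he' with rfl | rfl
    · exact hc1 a ha hea
    · exact hc2 a ha hea
  have h5 := Finset.card_le_card h3
  rw [Finset.card_union_of_disjoint h4, Finset.card_pair hne] at h5
  omega

end Pool.Agent.W571.KG.CNT
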