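import Pool.Agent.W998.KG.Stm

/-! Project KG, part GAP: neighbours of the last vertex of a path are far apart. -/

set_option autoImplicit false

namespace Pool.Agent.W571.KG.GAP

open Pool.Agent.Results.MP_633d19_co.SmallDegree
open Pool.Agent.Results.MP_633d19_co.SmallDegree.MGraph
open Pool.Agent.W998.KG

theorem gaps (d : ℕ) : ∀ (n : ℕ) (A : Finset ℕ) (r : ℕ), A.card = n + 1 →
    (∀ a ∈ A, ∀ b ∈ A, a < b → a + d ≤ b) → (∀ i ∈ A, i < r) → n * d + 1 ≤ r := by
  intro n
  induction n with
  | zero =>
    intro A r hA _ hr
    obtain ⟨i, hi⟩ := Finset.card_pos.1 (by omega : 0 < A.card)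
    have := hr i hi
    omega
  | succ n ih =>
    intro A r hA hg hr
    have hne : A.Nonempty := Finset.card_pos.1 (by omega)
    have hM := Finset.max'_mem A hne
    set M := A.max' hne with hMdef
    have hlt : ∀ i ∈ A.erase M, i + d ≤ M := by
      intro i hi
      have hi' := Finset.mem_erase.1 hi
      have h1 : i ≤ M := Finset.le_max' A i hi'.2
      exact hg i hi'.2 M hM (lt_of_le_of_ne h1 hi'.1)
    have hcard : (A.erase M).card = n + 1 := by
      rw [Finset.card_erase_of_mem hM, hA]
      rfl
    obtain ⟨i0, hi0⟩ := Finset.card_pos.1 (by omega : 0 < (A.erase M).card)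
    have h0 := hlt i0 hi0
    have h1 := ih (A.erase M) (M - d + 1) hcard
      (fun a ha b hb hab => hg a (Finset.mem_of_mem_erase ha) b (Finset.mem_of_mem_erase hb) hab)
      (fun i hi => by
        have := hlt i hi
        omega)
    have h2 := hr M hM
    have h3 : (n + 1) * d = n * d + d := by ring
    rw [h3]
    omega

theorem main : PartGAP := by
  intro V E G g r hg hcyc y hinj hed A hA hne
  have hgap : ∀ a ∈ A, ∀ b ∈ A, a < b → a + (g - 2) ≤ b := by
    intro a ha b hb hab
    obtain ⟨har, ea, hea⟩ := hA a ha
    obtain ⟨hbr, eb, heb⟩ := hA b hb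
    have h1 : G.HasCycle (b - a + 2) := by
      refine ⟨fun i => if i ≤ b - a then y (a + i) else y r, ?_, ?_⟩
      · intro i hi j hj hij
        simp only at hij
        split_ifs at hij with h2 h3 h3
        · have := hinj (a + i) (by omega) (a + j) (by omega) hij
          omega
        · have := hinj (a + i) (by omega) r le_rfl hij
          omega
        · have := hinj r le_rfl (a + j) (by omega) hij
          omega
        · omega
      · intro i hi
        rcases lt_trichotomy i (b - a) with h2 | h2 | h2
        · obtain ⟨e, he⟩ := hed (a + i) (by omega)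
          refine ⟨e, ?_⟩
          rw [Nat.mod_eq_of_lt (by omega)]
          beta_reduce
          rw [if_pos (by omega : i ≤ b - a), if_pos (by omega : i + 1 ≤ b - a), he]
          rfl
        · refine ⟨eb, ?_⟩
          rw [Nat.mod_eq_of_lt (by omega)]
          beta_reduce
          rw [if_pos (by omega : i ≤ b - a), if_neg (by omega : ¬ i + 1 ≤ b - a), heb,
            show a + i = b by omega, Sym2.eq_swap]
        · have h3 : i + 1 = b - a + 2 := by omega
          refine ⟨ea, ?_⟩
          rw [h3, Nat.mod_self]
          beta_reduce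
          rw [if_neg (by omega : ¬ i ≤ b - a), if_pos (by omega : 0 ≤ b - a), hea]
          rfl
    have h2 := hcyc _ (by omega) h1
    omega
  have hc : 0 < A.card := Finset.card_pos.2 hne
  exact gaps (g - 2) (A.card - 1) A r (by omega) hgap fun i hi => (hA i hi).1

end Pool.Agent.W571.KG.GAP
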